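import Pool.Agent.Helper33.TB.All
import Pool.Agent.Helper76.TB.Bridge
import Pool.Agent.Helper76.TB.Goals2

/-!
# Project TB, packet LGW: long gaps for all window lengths
-/

set_option autoImplicit false

open Finset Filter Topology

namespace Pool.Agent.Helper90.TB

open Pool.Agent.Helper90.Twin (Ps Gz Gz_pos Gz_anti mem_Ps Xz)
open Pool.Agent.Helper33.TB
open Pool.Agent.Helper76.TB (PAH l2 phi phi_one Pc_nat Gz_sub_PAH LGWG)

/-- conversion -/
theorem gap_eq (hX : StmtXSB) (z H : ℕ) : Gz z - PAH z H (fun _ => 1)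
    = Av (QS (Ps z)) (fun t => XS (Ps z) t * Pc (XS (Ps z)) 1 H t) := by
  rw [Gz_sub_PAH]
  unfold Av
  have hQS : QS (Ps z) = ∏ p ∈ Ps z, p := rfl
  rw [hQS]
  congr 1
  apply Finset.sum_congr rfl
  intro t _
  show _ = XS (Ps z) (t : ℤ) * Pc (XS (Ps z)) 1 H (t : ℤ)
  rw [phi_one, Pc_nat hX, hX.nat z t]

theorem Per_Pc {Q : ℕ} {X : ℤ → ℝ} (hX : Per Q X) (τ : ℝ) (H : ℕ) : Per Q (fun t => Pc X τ H t) := by
  intro t
  show Pc X τ H (t + Q) = Pc X τ H t
  unfold Pc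
  apply Finset.prod_congr rfl
  intro i _
  have : t + (Q : ℤ) + (i : ℤ) = t + (i : ℤ) + Q := by ring
  rw [this, hX]

/-- a factor is between zero and one -/
theorem fac_mem {X : ℤ → ℝ} (h0 : ∀ t, 0 ≤ X t) (h1 : ∀ t, X t ≤ 1) {τ : ℝ} (t0 : 0 ≤ τ) (t1 : τ ≤ 1)
    (t : ℤ) : 0 ≤ 1 - τ * X t ∧ 1 - τ * X t ≤ 1 := by
  have h2 := mul_le_one₀ t1 (h0 t) (h1 t)
  have h3 := mul_nonneg t0 (h0 t)
  constructor <;> linarith

/-- the product over a longer window is smaller -/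
theorem Pc_shift_le {X : ℤ → ℝ} (h0 : ∀ t, 0 ≤ X t) (h1 : ∀ t, X t ≤ 1) {τ : ℝ} (t0 : 0 ≤ τ)
    (t1 : τ ≤ 1) {b H i : ℕ} (hi : i ≤ b) (hb : b ≤ H) (t : ℤ) :
    Pc X τ H (t + i) ≤ Pc X τ (H - b) (t + b) := by
  have e1 : Pc X τ H (t + i) = ∏ j ∈ Icc (i + 1) (i + H), (1 - τ * X (t + (j : ℤ))) := by
    unfold Pc
    have himg : Icc (i + 1) (i + H) = (Icc 1 H).image (fun j => i + j) := by
      ext j
      simp only [mem_Icc, mem_image]
      constructor
      · rintro ⟨h1, h2⟩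
        exact ⟨j - i, ⟨by omega, by omega⟩, by omega⟩
      · rintro ⟨a, ⟨h1, h2⟩, rfl⟩
        omega
    rw [himg, Finset.prod_image (fun a _ b _ h => by simpa using h)]
    apply Finset.prod_congr rfl
    intro j _
    congr 3
    push_cast
    ring
  have e2 : Pc X τ (H - b) (t + b) = ∏ j ∈ Icc (b + 1) H, (1 - τ * X (t + (j : ℤ))) := by
    unfold Pc
    have himg : Icc (b + 1) H = (Icc 1 (H - b)).image (fun j => b + j) := by
      ext j
      simp only [mem_Icc, mem_image]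
      constructor
      · rintro ⟨h1, h2⟩
        exact ⟨j - b, ⟨by omega, by omega⟩, by omega⟩
      · rintro ⟨a, ⟨h1, h2⟩, rfl⟩
        omega
    rw [himg, Finset.prod_image (fun a _ b _ h => by simpa using h)]
    apply Finset.prod_congr rfl
    intro j _
    congr 3
    push_cast
    ring
  rw [e1, e2]
  have hsub : Icc (b + 1) H ⊆ Icc (i + 1) (i + H) := by
    intro j hj
    rw [mem_Icc] at hj ⊢
    omega
  rw [← Finset.prod_sdiff hsub]
  have hf := fun s : ℤ => fac_mem h0 h1 t0 t1 s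
  have p1 : ∏ j ∈ Icc (i + 1) (i + H) \ Icc (b + 1) H, (1 - τ * X (t + (j : ℤ))) ≤ 1 :=
    Finset.prod_le_one (fun j _ => (hf _).1) (fun j _ => (hf _).2)
  have p2 : 0 ≤ ∏ j ∈ Icc (b + 1) H, (1 - τ * X (t + (j : ℤ))) :=
    Finset.prod_nonneg (fun j _ => (hf _).1)
  calc _ ≤ 1 * ∏ j ∈ Icc (b + 1) H, (1 - τ * X (t + (j : ℤ))) :=
        mul_le_mul_of_nonneg_right p1 p2
    _ = _ := one_mul _

theorem Av_const_mul (Q : ℕ) (a : ℝ) (f : ℤ → ℝ) : Av Q (fun t => a * f t) = a * Av Q f := by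
  unfold Av
  rw [← Finset.mul_sum, mul_div_assoc]

theorem Av_add (Q : ℕ) (f g : ℤ → ℝ) : Av Q (fun t => f t + g t) = Av Q f + Av Q g := by
  unfold Av
  rw [Finset.sum_add_distrib, add_div]

theorem Av_sum (Q b : ℕ) (f : ℕ → ℤ → ℝ) :
    Av Q (fun t => ∑ i ∈ range b, f i t) = ∑ i ∈ range b, Av Q (f i) := by
  unfold Av
  rw [Finset.sum_comm, Finset.sum_div]

open Classical in
/-- the abstract estimate: a chosen element followed by a long gap -/
theorem abs_gap (hP : StmtPER) (hTL : StmtTL) {Q : ℕ} {X : ℤ → ℝ} (hS : Sq Q X) {τ δ : ℝ} {b H : ℕ}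
    (t0 : 0 ≤ τ) (t1 : τ ≤ 1) (hδ : 0 ≤ δ) (hb1 : 1 ≤ b) (hbH : 2 * b ≤ H)
    (hC : Conc Q X b (1 / 2) δ) :
    Av Q (fun t => X t * Pc X τ H t) ≤
      2 * Av Q X * (Real.exp (-(τ * Av Q X * ((H - b : ℕ) : ℝ) / 4)) + H * δ) + δ := by
  have h0 : ∀ t, 0 ≤ X t := fun t => by rcases hS.zo t with h | h <;> simp [h]
  have h1 : ∀ t, X t ≤ 1 := fun t => by rcases hS.zo t with h | h <;> simp [h]
  have hper := hS.per
  have hb0 : (0 : ℝ) < b := by exact_mod_cast hb1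
  set T := Av Q (fun t => X t * Pc X τ H t) with hT
  have hρ0 : 0 ≤ Av Q X := by
    unfold Av
    apply div_nonneg (Finset.sum_nonneg (fun t _ => h0 _)) (Nat.cast_nonneg _)
  set ρ := Av Q X with hρ
  have hPn : ∀ t, 0 ≤ Pc X τ (H - b) t := fun t => Pc_nonneg h0 h1 t1 _ t
  have hP1 : ∀ t, Pc X τ (H - b) t ≤ 1 := by
    intro t
    unfold Pc
    exact Finset.prod_le_one (fun j _ => (fac_mem h0 h1 t0 t1 _).1)
      (fun j _ => (fac_mem h0 h1 t0 t1 _).2)
  -- each shift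
  have hi : ∀ i ∈ range b, T ≤ Av Q (fun t => X (t + i) * Pc X τ (H - b) (t + b)) := by
    intro i hi
    rw [mem_range] at hi
    have hper2 : Per Q (fun t => X t * Pc X τ H t) := by
      intro t
      have e2 : Pc X τ H (t + Q) = Pc X τ H t := Per_Pc hper τ H t
      show X (t + Q) * Pc X τ H (t + Q) = X t * Pc X τ H t
      rw [hper t, e2]
    have e := hP.shift Q _ hper2 (i : ℤ)
    rw [hT, ← e]
    apply Av_mono
    intro t
    exact mul_le_mul_of_nonneg_left (Pc_shift_le h0 h1 t0 t1 hi.le (by omega) t) (h0 _)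
  have hsum : (b : ℝ) * T ≤ Av Q (fun t => Nb X b t * Pc X τ (H - b) (t + b)) := by
    have e1 : (b : ℝ) * T = ∑ i ∈ range b, T := by simp
    rw [e1]
    refine (Finset.sum_le_sum hi).trans ?_
    rw [← Av_sum Q b (fun i t => X (t + i) * Pc X τ (H - b) (t + b))]
    apply Av_mono
    intro t
    unfold Nb
    rw [Finset.sum_mul]
  -- pointwise
  have hpt : ∀ t, Nb X b t * Pc X τ (H - b) (t + b) ≤
      (2 * ρ * b) * Pc X τ (H - b) (t + b) +
        b * (if 1 / 2 * (Av Q X * b) < |Nb X b t - Av Q X * b| then (1 : ℝ) else 0) := by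
    intro t
    have hN0 : 0 ≤ Nb X b t := Finset.sum_nonneg (fun i _ => h0 _)
    have hNb : Nb X b t ≤ b := by
      unfold Nb
      calc ∑ i ∈ range b, X (t + (i : ℤ)) ≤ ∑ i ∈ range b, (1 : ℝ) :=
            Finset.sum_le_sum (fun i _ => h1 _)
        _ = b := by simp
    split_ifs with hc
    · have h2 : Nb X b t * Pc X τ (H - b) (t + b) ≤ b * 1 :=
        mul_le_mul hNb (hP1 _) (hPn _) hb0.le
      have h3 : 0 ≤ (2 * ρ * b) * Pc X τ (H - b) (t + b) :=
        mul_nonneg (by positivity) (hPn _)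
      linarith
    · push Not at hc
      rw [abs_le] at hc
      have h2 : Nb X b t ≤ 2 * ρ * b := by
        have h4 : 0 ≤ ρ * b := mul_nonneg hρ0 hb0.le
        have := hc.2
        nlinarith
      have h3 := mul_le_mul_of_nonneg_right h2 (hPn (t + b))
      simpa using h3
  have hAv : Av Q (fun t => Nb X b t * Pc X τ (H - b) (t + b)) ≤
      (2 * ρ * b) * Av Q (fun t => Pc X τ (H - b) t) + b * δ := by
    refine (Av_mono hpt).trans ?_
    rw [Av_add Q (fun t => (2 * ρ * b) * Pc X τ (H - b) (t + b)), Av_const_mul Q (2 * ρ * b)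
      (fun t => Pc X τ (H - b) (t + b)), Av_const_mul Q (b : ℝ)]
    have e := hP.shift Q _ (Per_Pc hper τ (H - b)) (b : ℤ)
    rw [e]
    have := mul_le_mul_of_nonneg_left hC hb0.le
    linarith
  have hTLb := hTL Q X hS τ b (H - b) δ t0 t1 hδ hb1 (by omega) hC
  have hHb : ((H - b : ℕ) : ℝ) * δ ≤ H * δ := by
    apply mul_le_mul_of_nonneg_right _ hδ
    exact_mod_cast Nat.sub_le H b
  have hfin : (b : ℝ) * T ≤ b * (2 * ρ * (Real.exp (-(τ * ρ * ((H - b : ℕ) : ℝ) / 4)) + H * δ) + δ) := by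
    calc (b : ℝ) * T ≤ (2 * ρ * b) * Av Q (fun t => Pc X τ (H - b) t) + b * δ := hsum.trans hAv
      _ ≤ (2 * ρ * b) * (Real.exp (-(τ * ρ * ((H - b : ℕ) : ℝ) / 4)) + H * δ) + b * δ := by
          have : Av Q (fun t => Pc X τ (H - b) t) ≤
              Real.exp (-(τ * ρ * ((H - b : ℕ) : ℝ) / 4)) + H * δ := by linarith
          have := mul_le_mul_of_nonneg_left this (by positivity : 0 ≤ 2 * ρ * b)
          linarith
      _ = _ := by ring
  exact le_of_mul_le_mul_left hfin hb0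

theorem lgw (hE2 : StmtE2) : LGWG := by
  obtain ⟨c₁, c₂, hc₁, hc₂, Z, hM⟩ := mertens hE2
  obtain ⟨c, hc, b₀, hb₀⟩ := sCC (4 * 40) (1 / 2) (by norm_num)
  refine ⟨4, by norm_num, ?_⟩
  have e1 : ∀ᶠ x : ℝ in atTop, 101 / c₁ * (Real.log x) ^ 1 ≤ x ^ (1 : ℝ) := ev_log_pow _ _ one_pos
  have e2 : ∀ᶠ x : ℝ in atTop, 1 * x ^ 9 * Real.exp (-(x ^ (c / 2))) ≤ 1 :=
    ev_exp 1 9 (by positivity) one_pos
  have e3 : ∀ᶠ x : ℝ in atTop, 6400 / c₁ * (Real.log x) ^ 2 ≤ x ^ (1 : ℝ) :=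
    ev_log_pow _ _ one_pos
  have e4 : ∀ᶠ x : ℝ in atTop, max (32 / c₁) (max (5 * c₂) (max 5 ((b₀ : ℝ) ^ 2))) ≤ x :=
    eventually_ge_atTop _
  filter_upwards [ev_fct hc₁ hc₂ hM (m := 40) (by omega), tendsto_log_nat.eventually e1,
    tendsto_log_nat.eventually e2, tendsto_log_nat.eventually e3, tendsto_log_nat.eventually e4]
    with z hF a1 a2 a3 a4 H hH1 hH2
  have hx2 := hF.x2
  have hl1 := hF.l1
  have hLl := hF.Llow
  have hLu := hF.Lup
  have hLz := hF.Lz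
  have g1 := hF.glow
  have g2 := hF.gup
  have r1 := hF.rlow
  have hl2 : l2 z = Real.log (Real.log z) := rfl
  rw [hl2] at hH2
  set x := Real.log z with hx
  set l := Real.log x with hl
  set L := ell z ^ 40 with hL
  have hx0 : 0 < x := by linarith
  have hl0 : 0 < l := by linarith
  have hρ := Gz_pos L
  have hg := Gz_pos z
  have hgρ : Gz z ≤ Gz L := Gz_anti hLz
  set g := Gz z with hgdef
  set ρ := Gz L with hρdef
  have hx32 : 32 / c₁ ≤ x := (le_max_left _ _).trans a4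
  have a5 := (le_max_right _ _).trans a4
  have hx5c : 5 * c₂ ≤ x := (le_max_left _ _).trans a5
  have a6 := (le_max_right _ _).trans a5
  have hx5 : 5 ≤ x := (le_max_left _ _).trans a6
  have hxb : (b₀ : ℝ) ^ 2 ≤ x := (le_max_right _ _).trans a6
  rw [div_le_iff₀ (by positivity)] at g1 r1
  rw [le_div_iff₀ (by positivity)] at g2
  rw [Real.rpow_one, pow_one] at a1
  rw [Real.rpow_one] at a3
  have hH0 : (0 : ℝ) ≤ H := Nat.cast_nonneg H
  -- bounds for `H`
  have hHx3 : (H : ℝ) ≤ x ^ 3 := by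
    have h1 : c₁ * H ≤ 101 * l * x ^ 2 := by
      calc c₁ * H ≤ (g * x ^ 2) * H := by gcongr
        _ = (H * g) * x ^ 2 := by ring
        _ ≤ (101 * l) * x ^ 2 := by gcongr
    have h2 : 101 * l ≤ c₁ * x := by
      have h3 : 101 / c₁ * l * c₁ ≤ x * c₁ := by gcongr
      have h4 : 101 / c₁ * l * c₁ = 101 * l := by field_simp
      linarith
    have h3 : c₁ * H ≤ c₁ * x ^ 3 := by
      calc c₁ * H ≤ 101 * l * x ^ 2 := h1
        _ ≤ (c₁ * x) * x ^ 2 := by gcongr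
        _ = c₁ * x ^ 3 := by ring
    exact le_of_mul_le_mul_left h3 hc₁
  have hH5x : 5 * x ≤ H := by
    have h1 : 1 * x ^ 2 ≤ (H * g) * x ^ 2 := by gcongr
    have h2 : (H * g) * x ^ 2 ≤ H * c₂ := by
      calc (H * g) * x ^ 2 = H * (g * x ^ 2) := by ring
        _ ≤ H * c₂ := by gcongr
    have h3 : (5 * x) * c₂ ≤ H * c₂ := by
      calc (5 * x) * c₂ = (5 * c₂) * x := by ring
        _ ≤ x * x := by gcongr
        _ = 1 * x ^ 2 := by ring
        _ ≤ H * c₂ := h1.trans h2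
    exact le_of_mul_le_mul_right h3 hc₂
  -- the block length
  set b := ⌈Real.sqrt x⌉₊ with hbdef
  obtain ⟨q1, q2, q3⟩ := ceil_sqrt_facts (by linarith : 4 ≤ x)
  rw [← hbdef] at q1 q2 q3
  have hbb : b₀ ≤ b := by
    have : (b₀ : ℝ) ≤ Real.sqrt x := Real.le_sqrt_of_sq_le hxb
    exact_mod_cast this.trans q1
  have hxL : x ≤ L := by
    calc x = x ^ 1 := (pow_one _).symm
      _ ≤ x ^ 40 := pow_le_pow_right₀ (by linarith) (by norm_num)
      _ ≤ L := hF.Llow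
  have hbL : b ≤ L := by exact_mod_cast q2.trans hxL
  have hLb : L ≤ b ^ (4 * 40) := by
    have h1 : (L : ℝ) ≤ ((b ^ (4 * 40) : ℕ) : ℝ) := by
      calc (L : ℝ) ≤ (2 * x) ^ 40 := hF.Lup
        _ ≤ (x ^ 2) ^ 40 := by
            gcongr
            nlinarith
        _ = ((Real.sqrt x) ^ 4) ^ 40 := by
            congr 1
            rw [show (4 : ℕ) = 2 * 2 by norm_num, pow_mul, Real.sq_sqrt hx0.le]
        _ ≤ ((b : ℝ) ^ 4) ^ 40 := by gcongr
        _ = ((b ^ (4 * 40) : ℕ) : ℝ) := by rw [← pow_mul]; push_cast; rfl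
    exact_mod_cast h1
  have hconc := hb₀ b L hbb hbL hLb
  have hSq := sXSB.ne (Ps L) (Ps_prime5 L)
  have hτ0 : 0 ≤ g / ρ := by positivity
  have hτ1 : g / ρ ≤ 1 := by
    rw [div_le_one hρ]
    exact hgρ
  have h5bH : 5 * b ≤ H := by
    have : (5 * (b : ℝ)) ≤ H := by linarith
    exact_mod_cast this
  have hab := abs_gap (H := H) sPER sTL hSq hτ0 hτ1 (Real.exp_pos (-((b : ℝ) ^ c))).le q3
    (by omega) hconc
  rw [AvX sXSB, ← hρdef] at hab
  set T := Av (QS (Ps L)) (fun t => XS (Ps L) t * Pc (XS (Ps L)) (g / ρ) H t) with hTdef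
  set δ := Real.exp (-((b : ℝ) ^ c)) with hδdef
  have hδ0 : 0 < δ := Real.exp_pos _
  have hδ : δ ≤ 1 / x ^ 9 := by
    refine (exp_rpow_le hx0.le q1 hc).trans ?_
    rw [le_div_iff₀ (by positivity)]
    linarith
  have hgρρ : g / ρ * ρ = g := by field_simp
  rw [hgρρ] at hab
  have hexp : Real.exp (-(g * ((H - b : ℕ) : ℝ) / 4)) ≤ Real.exp (-(H * g / 5)) := by
    apply Real.exp_le_exp.2
    have h1 : ((H - b : ℕ) : ℝ) = H - b := by
      rw [Nat.cast_sub (by omega)]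
    rw [h1]
    have h2 : (5 * (b : ℝ)) ≤ H := by exact_mod_cast h5bH
    nlinarith
  have hτT : g / ρ * T ≤ g * (2 * Real.exp (-(H * g / 5)) + 3 / x ^ 6) := by
    have h1 : T ≤ 2 * ρ * (Real.exp (-(H * g / 5)) + H * δ) + δ := by
      have := mul_le_mul_of_nonneg_left hexp (by positivity : 0 ≤ 2 * ρ)
      nlinarith
    have h2 : g / ρ * T ≤ g / ρ * (2 * ρ * (Real.exp (-(H * g / 5)) + H * δ) + δ) :=
      mul_le_mul_of_nonneg_left h1 hτ0
    have h3 : g / ρ * (2 * ρ * (Real.exp (-(H * g / 5)) + H * δ) + δ) =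
        g * (2 * Real.exp (-(H * g / 5)) + 2 * (H * δ) + (1 / ρ) * δ) := by
      field_simp
    have h4 : H * δ ≤ 1 / x ^ 6 := by
      calc (H : ℝ) * δ ≤ x ^ 3 * (1 / x ^ 9) := by gcongr
        _ = 1 / x ^ 6 := by field_simp
    have h5 : 1 / ρ ≤ x := by
      rw [div_le_iff₀ hρ]
      have h6 : c₁ ≤ 6400 * l ^ 2 * ρ := by
        push_cast at r1
        calc c₁ ≤ ρ * (2 * 40 * l) ^ 2 := r1
          _ = _ := by ring
      have h7 : 6400 * l ^ 2 ≤ x * c₁ := by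
        have h8 : 6400 / c₁ * l ^ 2 * c₁ ≤ x * c₁ := by gcongr
        have h9 : 6400 / c₁ * l ^ 2 * c₁ = 6400 * l ^ 2 := by field_simp
        linarith
      have h8 : c₁ * 1 ≤ c₁ * (x * ρ) := by
        calc c₁ * 1 = c₁ := mul_one _
          _ ≤ 6400 * l ^ 2 * ρ := h6
          _ ≤ (x * c₁) * ρ := by gcongr
          _ = c₁ * (x * ρ) := by ring
      exact le_of_mul_le_mul_left h8 hc₁
    have h6 : (1 / ρ) * δ ≤ 1 / x ^ 6 := by
      calc (1 / ρ) * δ ≤ x * (1 / x ^ 9) := by gcongr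
        _ = 1 / x ^ 8 := by field_simp
        _ ≤ 1 / x ^ 6 := by
            apply div_le_div_of_nonneg_left zero_le_one (by positivity)
            exact pow_le_pow_right₀ (by linarith) (by norm_num)
    refine (h2.trans (le_of_eq h3)).trans ?_
    apply mul_le_mul_of_nonneg_left _ hg.le
    have h7 : 3 / x ^ 6 = 3 * (1 / x ^ 6) := by ring
    rw [h7]
    linarith
  have h3H : 3 * H + 1 ≤ L := by
    have h1 : (3 * (H : ℝ) + 1) ≤ (L : ℝ) := by
      refine le_trans ?_ hLl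
      have h2 : (1 : ℝ) ≤ x ^ 3 := one_le_pow₀ (by linarith)
      calc 3 * (H : ℝ) + 1 ≤ 3 * x ^ 3 + x ^ 3 := by linarith
        _ = 4 * x ^ 3 := by ring
        _ ≤ x ^ 2 * x ^ 3 := by
            apply mul_le_mul_of_nonneg_right _ (by positivity)
            nlinarith
        _ = x ^ 5 := by ring
        _ ≤ x ^ 40 := pow_le_pow_right₀ (by linarith) (by norm_num)
    exact_mod_cast h1
  have hST1 := (sST L z H h3H (by omega) hLz).2
  rw [← hgdef, ← hρdef, ← hTdef] at hST1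
  rw [abs_le] at hST1
  have hST2 := hST1.2
  have hlast : 8 * ((H : ℝ) + 1) ^ 2 / (L : ℝ) ≤ g * (1 / x ^ 6) := by
    have h1 : (H : ℝ) + 1 ≤ 2 * x ^ 3 := by
      have h2 : (1 : ℝ) ≤ x ^ 3 := one_le_pow₀ (by linarith)
      linarith
    have h5 : 32 ≤ c₁ * x ^ 26 := by
      rw [div_le_iff₀ hc₁] at hx32
      have h6 : x ≤ x ^ 26 := by
        calc x = x ^ 1 := (pow_one _).symm
          _ ≤ x ^ 26 := pow_le_pow_right₀ (by linarith) (by norm_num)
      nlinarith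
    calc 8 * ((H : ℝ) + 1) ^ 2 / (L : ℝ) ≤ 8 * (2 * x ^ 3) ^ 2 / x ^ 40 := by gcongr
      _ = 32 / (x ^ 26 * x ^ 8) := by
          field_simp
          ring
      _ ≤ (c₁ * x ^ 26) / (x ^ 26 * x ^ 8) := by gcongr
      _ = c₁ * (1 / x ^ 8) := by field_simp
      _ ≤ (g * x ^ 2) * (1 / x ^ 8) := by gcongr
      _ = g * (1 / x ^ 6) := by field_simp
  rw [gap_eq sXSB]
  have hfinal : Av (QS (Ps z)) (fun t => XS (Ps z) t * Pc (XS (Ps z)) 1 H t) ≤
      g * (2 * Real.exp (-(H * g / 5)) + 3 / x ^ 6) + g * (1 / x ^ 6) := by linarith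
  refine hfinal.trans ?_
  have h8 : g * (4 * (Real.exp (-(H * g / 5)) + 1 / x ^ 6)) -
      (g * (2 * Real.exp (-(H * g / 5)) + 3 / x ^ 6) + g * (1 / x ^ 6)) =
      g * (2 * Real.exp (-(H * g / 5))) := by ring
  have h9 : 0 ≤ g * (2 * Real.exp (-(H * g / 5))) := by positivity
  linarith

end Pool.Agent.Helper90.TB
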